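import Pool.Agent.H47.L.R_seed8.W515.Cheb.Ser

set_option autoImplicit false

open Complex Filter Topology NumberField IsDedekindDomain Pool.Agent.H921R2.TatePole H332.PIT

namespace Pool.Agent.W515.Cheb

section

variable (K : Type) [Field K] [NumberField K] {q : ℕ} [NeZero q] (χ : DirichletCharacter ℂ q)

theorem LL_zero : Tendsto (fun σ : ℝ => ((σ : ℂ) - 1) * LL K (σ + (0 : ℝ) * I)) (𝓝[>] 1)
    (𝓝 1) := by
  have hK : Cont K := Pool.Agent.H484R2.continuation K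
  obtain ⟨m0, hm0, hm0'⟩ := LL_limit hK 0
  have hz0 : m0 = 0 := by
    obtain ⟨g0, hg0, hgz0⟩ := hK 0
    have := cont_zero_ne hg0 hgz0
    by_contra h
    exact this ((hm0' g0 hg0 hgz0).mpr h)
  rw [if_pos rfl, hz0] at hm0
  simpa using hm0

variable {K χ}

theorem limX (hT : Pool.Agent.W401.Cheb.TaskCont) (hχ : χ (-1) = 1) (t : ℝ) : ∃ m : ℕ,
    Tendsto (fun σ : ℝ => ((σ : ℂ) - 1) * LX K χ (σ + t * I)) (𝓝[>] 1)
      (𝓝 ((if t = 0 then 1 else 0) - (m : ℂ))) := by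
  obtain ⟨m, k, hk, hL⟩ := (dat (K := K) hT hχ).local t
  exact ⟨m, limit_of_local hk hL⟩

omit [NeZero q] in
lemma sq_even (hχ : χ (-1) = 1) : (χ ^ 2) (-1) = 1 := by
  rw [MulChar.pow_apply' _ two_ne_zero, hχ, one_pow]

theorem limX_ne (hT : Pool.Agent.W401.Cheb.TaskCont) (hχ : χ (-1) = 1) {t : ℝ} (ht : t ≠ 0) :
    Tendsto (fun σ : ℝ => ((σ : ℂ) - 1) * LX K χ (σ + t * I)) (𝓝[>] 1) (𝓝 0) := by
  have hm0 := LL_zero K
  obtain ⟨m1, hm1⟩ := limX (K := K) hT hχ t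
  obtain ⟨m2, hm2⟩ := limX (K := K) hT (sq_even hχ) (2 * t)
  rw [if_neg ht] at hm1
  rw [if_neg (by simpa using ht)] at hm2
  have h1 := ((hm0.const_mul 3).add (hm1.const_mul 4)).add hm2
  have h2 := (Complex.continuous_re.tendsto _).comp h1
  have h3 : ∀ᶠ σ : ℝ in 𝓝[>] 1, 0 ≤ (Complex.re ∘ fun x : ℝ =>
      3 * (((x : ℂ) - 1) * LL K (x + (0 : ℝ) * I)) + 4 * (((x : ℂ) - 1) * LX K χ (x + t * I)) +
      ((x : ℂ) - 1) * LX K (χ ^ 2) (x + (2 * t : ℝ) * I)) σ := by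
    filter_upwards [self_mem_nhdsWithin] with σ hσ
    have hσ1 : (1 : ℝ) < σ := hσ
    have h4 := three_four_one' (K := K) (χ := χ) hσ1 t
    have h5 : (3 * (((σ : ℂ) - 1) * LL K (σ + (0 : ℝ) * I)) + 4 * (((σ : ℂ) - 1) * LX K χ (σ + t * I)) +
      ((σ : ℂ) - 1) * LX K (χ ^ 2) (σ + (2 * t : ℝ) * I)) = ((σ - 1 : ℝ) : ℂ) *
        (((3 : ℝ) : ℂ) * LL K σ + ((4 : ℝ) : ℂ) * LX K χ (σ + t * I) +
          LX K (χ ^ 2) (σ + (2 * t : ℝ) * I)) := by
      push_cast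
      simp only [zero_mul, add_zero]
      ring
    simp only [Function.comp]
    rw [h5, Complex.re_ofReal_mul, Complex.add_re, Complex.add_re, Complex.re_ofReal_mul,
      Complex.re_ofReal_mul]
    exact mul_nonneg (by linarith) h4
  have h4 := ge_of_tendsto h2 h3
  have h5 : (3 * (1 : ℂ) + 4 * (0 - (m1 : ℂ)) + (0 - (m2 : ℂ))).re =
      3 - 4 * (m1 : ℝ) - m2 := by
    simp
    ring
  rw [h5] at h4
  have h6 : m1 = 0 := by
    by_contra h7
    have h8 : (1 : ℝ) ≤ m1 := by exact_mod_cast Nat.one_le_iff_ne_zero.mpr h7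
    have h9 : (0 : ℝ) ≤ m2 := Nat.cast_nonneg _
    linarith
  rw [h6] at hm1
  simpa using hm1

lemma LX_inv (σ : ℝ) : LX K χ⁻¹ (σ : ℂ) = (starRingEnd ℂ) (LX K χ (σ : ℂ)) := by
  unfold LX LSeries
  rw [Complex.conj_tsum]
  refine tsum_congr fun n => ?_
  rcases eq_or_ne n 0 with rfl | hn
  · simp
  · rw [LSeries.term_of_ne_zero hn, LSeries.term_of_ne_zero hn, map_div₀]
    congr 1
    · unfold lc
      rw [map_mul, Complex.conj_ofReal, ← MulChar.star_apply']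
      rfl
    · rw [← Complex.ofReal_natCast, ← Complex.ofReal_cpow (Nat.cast_nonneg n), Complex.conj_ofReal]

lemma limX_inv {m : ℕ}
    (h : Tendsto (fun σ : ℝ => ((σ : ℂ) - 1) * LX K χ (σ + (0 : ℝ) * I)) (𝓝[>] 1) (𝓝 (1 - (m : ℂ)))) :
    Tendsto (fun σ : ℝ => ((σ : ℂ) - 1) * LX K χ⁻¹ (σ + (0 : ℝ) * I)) (𝓝[>] 1) (𝓝 (1 - (m : ℂ))) := by
  have h1 := (Complex.continuous_conj.tendsto _).comp h
  have h2 : (starRingEnd ℂ) (1 - (m : ℂ)) = 1 - (m : ℂ) := by simp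
  rw [h2] at h1
  refine h1.congr fun σ => ?_
  simp only [Function.comp, ofReal_zero, zero_mul, add_zero, map_mul, map_sub, map_one,
    Complex.conj_ofReal]
  rw [LX_inv]

omit [NeZero q] in
lemma inv_even (hχ : χ (-1) = 1) : χ⁻¹ (-1) = 1 := by
  rw [MulChar.inv_apply_eq_inv', hχ, inv_one]

/-- the weight `Re (ζ χ(n))` -/
noncomputable def wt (ζ : ℂ) (χ : DirichletCharacter ℂ q) (n : ℕ) : ℝ := (ζ * χ n).re

lemma wt_ge {ζ : ℂ} (hζ : ‖ζ‖ ≤ 1) (n : ℕ) : -1 ≤ wt ζ χ n ∧ wt ζ χ n ≤ 1 := by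
  have h1 : ‖ζ * χ n‖ ≤ 1 := by
    rw [norm_mul]
    exact mul_le_one₀ hζ (norm_nonneg _) (chi_norm_le n)
  have h2 := Complex.abs_re_le_norm (ζ * χ n)
  unfold wt
  exact abs_le.mp (h2.trans h1)

lemma wt_eq (ζ : ℂ) (n : ℕ) :
    ((wt ζ χ n : ℝ) : ℂ) = ζ / 2 * χ n + (starRingEnd ℂ) ζ / 2 * χ⁻¹ n := by
  unfold wt
  rw [← MulChar.star_apply', Complex.re_eq_add_conj, map_mul]
  simp only [RCLike.star_def]
  ring

theorem sum_wt (hT : Pool.Agent.W401.Cheb.TaskCont) (hχ : χ (-1) = 1) {m : ℕ}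
    (hm : Tendsto (fun σ : ℝ => ((σ : ℂ) - 1) * LX K χ (σ + (0 : ℝ) * I)) (𝓝[>] 1)
      (𝓝 (1 - (m : ℂ)))) {ζ : ℂ} (hζ : ‖ζ‖ ≤ 1) :
    Tendsto (fun x : ℝ => (∑ k ∈ Finset.Icc 1 ⌊x⌋₊, LamK K k * (1 + wt ζ χ k)) / x) atTop
      (𝓝 (1 + ζ.re * (1 - m))) := by
  set f : ℂ → ℂ := fun s => (LL K s - 1 / (s - 1)) + ζ / 2 * (LX K χ s - (1 - (m : ℂ)) / (s - 1)) +
    (starRingEnd ℂ) ζ / 2 * (LX K χ⁻¹ s - (1 - (m : ℂ)) / (s - 1)) with hf
  have hbd : ∀ s : ℂ, 1 ≤ s.re → ∃ y, Tendsto f (𝓝[{s : ℂ | 1 < s.re}] s) (𝓝 y) := by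
    intro s hs
    obtain ⟨y0, h0⟩ := boundary (K := K) (Pool.Agent.H484R2.continuation K) hs
    obtain ⟨y1, h1⟩ := (dat (K := K) hT hχ).boundary hm (fun t ht => limX_ne hT hχ ht) hs
    obtain ⟨y2, h2⟩ := (dat (K := K) hT (inv_even hχ)).boundary (limX_inv hm)
      (fun t ht => limX_ne hT (inv_even hχ) ht) hs
    exact ⟨_, (h0.add (h1.const_mul _)).add (h2.const_mul _)⟩
  refine Pool.Agent.Helper923.PNT.wiener_ikehara (fun k => LamK K k * (1 + wt ζ χ k)) ?_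
    (2 * ((Module.finrank ℚ K : ℝ) ^ 2 * (Real.log 4 + 4))) (1 + ζ.re * (1 - m)) ?_
    (extendFrom {s : ℂ | 1 < s.re} f) ?_ ?_
  · intro n
    exact mul_nonneg (LamK_nonneg n) (by linarith [(wt_ge (χ := χ) hζ n).1])
  · intro n
    have h1 : ∑ k ∈ Finset.Icc 1 n, LamK K k * (1 + wt ζ χ k) ≤
        ∑ k ∈ Finset.Icc 1 n, LamK K k * 2 := by
      refine Finset.sum_le_sum fun k _ => ?_
      exact mul_le_mul_of_nonneg_left (by linarith [(wt_ge (χ := χ) hζ k).2]) (LamK_nonneg k)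
    have h2 : ∑ k ∈ Finset.Icc 1 n, LamK K k ≤
        (Module.finrank ℚ K : ℝ) ^ 2 * Chebyshev.psi n := by
      unfold Chebyshev.psi
      rw [Nat.floor_natCast, Finset.mul_sum]
      exact Finset.sum_le_sum fun k _ => LamK_le k
    have h3 : (Module.finrank ℚ K : ℝ) ^ 2 * Chebyshev.psi n ≤
        (Module.finrank ℚ K : ℝ) ^ 2 * ((Real.log 4 + 4) * n) :=
      mul_le_mul_of_nonneg_left (Chebyshev.psi_le_const_mul_self (Nat.cast_nonneg n))
        (by positivity)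
    rw [← Finset.sum_mul] at h1
    linarith
  · refine continuousOn_extendFrom ?_ fun s hs => hbd s hs
    intro s hs
    rw [Metric.mem_closure_iff]
    intro ε hε
    refine ⟨s + ((ε / 2 : ℝ) : ℂ), ?_, ?_⟩
    · have : (1 : ℝ) ≤ s.re := hs
      simp only [Set.mem_ofPred_eq, Complex.add_re, Complex.ofReal_re]
      linarith
    · rw [dist_eq_norm, sub_add_cancel_left, norm_neg, Complex.norm_real, Real.norm_eq_abs,
        abs_of_pos (by linarith)]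
      linarith
  · intro s hs
    have h1 : ContinuousOn f {s : ℂ | 1 < s.re} := by
      intro z hz
      have hz1 : z - 1 ≠ 0 := ne_one_of_re hz
      have hc : ∀ a : ℂ, ContinuousAt (fun z : ℂ => a / (z - 1)) z := fun a =>
        continuousAt_const.div (continuous_id.sub continuous_const).continuousAt hz1
      refine ContinuousAt.continuousWithinAt ?_
      exact (((LL_analyticAt hz).continuousAt.sub (hc _)).add
        (continuousAt_const.mul ((LX_analyticAt hz).continuousAt.sub (hc _)))).add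
        (continuousAt_const.mul ((LX_analyticAt hz).continuousAt.sub (hc _)))
    rw [extendFrom_extends h1 s hs, hf]
    have h2 : LSeries (fun n => ((LamK K n * (1 + wt ζ χ n) : ℝ) : ℂ)) s =
        LL K s + ζ / 2 * LX K χ s + (starRingEnd ℂ) ζ / 2 * LX K χ⁻¹ s := by
      have e1 : (fun n : ℕ => ((LamK K n * (1 + wt ζ χ n) : ℝ) : ℂ)) =
          (fun n : ℕ => (LamK K n : ℂ)) + (ζ / 2) • (lc K χ) +
            ((starRingEnd ℂ) ζ / 2) • (lc K χ⁻¹) := by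
        funext n
        simp only [Pi.add_apply, Pi.smul_apply, smul_eq_mul]
        rw [Complex.ofReal_mul, Complex.ofReal_add, wt_eq]
        unfold lc
        push_cast
        ring
      have a0 : LSeriesSummable (fun n : ℕ => (LamK K n : ℂ)) s := LamK_summable (K := K) hs
      have a1 : LSeriesSummable ((ζ / 2) • (lc K χ)) s := (lc_summable hs).smul _
      have a2 : LSeriesSummable (((starRingEnd ℂ) ζ / 2) • (lc K χ⁻¹)) s := (lc_summable hs).smul _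
      rw [e1, LSeries_add (a0.add a1) a2, LSeries_add a0 a1, LSeries_smul, LSeries_smul]
      rfl
    rw [h2]
    have h3 : (((1 + ζ.re * (1 - m) : ℝ)) : ℂ) =
        1 + (ζ / 2 + (starRingEnd ℂ) ζ / 2) * (1 - (m : ℂ)) := by
      push_cast
      rw [Complex.re_eq_add_conj]
      ring
    rw [h3]
    have hs1 := ne_one_of_re hs
    simp only
    field_simp
    ring

/-- the mean value of `Λ_K(n) χ(n)` -/
theorem mean_Lam (hT : Pool.Agent.W401.Cheb.TaskCont) (hχ : χ (-1) = 1) : ∃ m : ℕ,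
    Tendsto (fun N : ℕ => (∑ k ∈ Finset.Icc 1 N, (LamK K k : ℂ) * χ k) / (N : ℂ)) atTop
      (𝓝 (1 - (m : ℂ))) := by
  obtain ⟨m, hm⟩ := limX (K := K) hT hχ 0
  rw [if_pos rfl] at hm
  refine ⟨m, ?_⟩
  have key : ∀ ζ : ℂ, ‖ζ‖ ≤ 1 → Tendsto (fun N : ℕ =>
      (∑ k ∈ Finset.Icc 1 N, LamK K k * wt ζ χ k) / (N : ℝ)) atTop (𝓝 (ζ.re * (1 - m))) := by
    intro ζ hζ
    have h1 := (sum_wt (K := K) hT hχ hm hζ).comp (tendsto_natCast_atTop_atTop (R := ℝ))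
    have h2 := (sum_LamK (K := K) (Pool.Agent.H484R2.continuation K)).comp
      (tendsto_natCast_atTop_atTop (R := ℝ))
    have h3 := h1.sub h2
    have e : 1 + ζ.re * (1 - (m : ℝ)) - 1 = ζ.re * (1 - m) := by ring
    rw [e] at h3
    refine h3.congr fun N => ?_
    simp only [Function.comp, Nat.floor_natCast]
    rw [← sub_div, ← Finset.sum_sub_distrib]
    congr 1
    exact Finset.sum_congr rfl fun k _ => by ring
  have k1 := key 1 (by simp)
  have k2 := key (-I) (by simp)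
  have h1 : Tendsto (fun N : ℕ => (((∑ k ∈ Finset.Icc 1 N, LamK K k * wt 1 χ k) / (N : ℝ) : ℝ) : ℂ) +
      (((∑ k ∈ Finset.Icc 1 N, LamK K k * wt (-I) χ k) / (N : ℝ) : ℝ) : ℂ) * I) atTop
      (𝓝 ((((1 : ℂ).re * (1 - m) : ℝ) : ℂ) + ((((-I).re * (1 - m) : ℝ)) : ℂ) * I)) :=
    ((Complex.continuous_ofReal.tendsto _).comp k1).add
      (((Complex.continuous_ofReal.tendsto _).comp k2).mul_const I)
  have e : ((((1 : ℂ).re * (1 - m) : ℝ) : ℂ) + ((((-I).re * (1 - m) : ℝ)) : ℂ) * I) =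
      1 - (m : ℂ) := by simp
  rw [e] at h1
  refine h1.congr fun N => ?_
  push_cast
  rw [div_mul_eq_mul_div, ← add_div, Finset.sum_mul, ← Finset.sum_add_distrib]
  congr 1
  refine Finset.sum_congr rfl fun k _ => ?_
  have h2 : wt 1 χ k = (χ k).re := by simp [wt]
  have h3 : wt (-I) χ k = (χ k).im := by simp [wt]
  rw [h2, h3]
  conv_rhs => rw [← Complex.re_add_im (χ k)]
  ring

end

end Pool.Agent.W515.Cheb
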